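import Pool.Agent.Results.MP_de6c1e_al.SpacelikeLimit

/-!
# The catchment set of limit roots need not be closed

For the Lorentzian Coxeter system of `PGL(2, ℤ)` (exponents `2`, `3`, `∞`), the set `F_Φ` of the directions `x` with
`E_x = E_Φ` is not closed in the projective space.
-/

set_option autoImplicit false

namespace Pool.Agent.Results.MP_241ca8_al.CatchmentNotClosed

open Filter Topology
open scoped LinearAlgebra.Projectivization
open MP_de6c1e_al.SpacelikeLimit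

/-! ### Definitions -/

section defs

variable {n : ℕ}

/-- the roots `Φ = W · Δ` -/
def Roots (M : CoxeterMatrix (Fin n)) (c : Fin n → Fin n → ℝ) : Set (Fin n → ℝ) :=
  {α | ∃ w ∈ Wim M c, ∃ s, α = w (root s)}

/-- the projective roots -/
def projRoots (M : CoxeterMatrix (Fin n)) (c : Fin n → Fin n → ℝ) : Set (ℙ ℝ (Fin n → ℝ)) :=
  {p | ∃ α ∈ Roots M c, ∃ h : α ≠ 0, p = Projectivization.mk ℝ α h}

/-- the accumulation points of a set in the projective space with its usual topology -/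
def acc (S : Set (ℙ ℝ (Fin n → ℝ))) : Set (ℙ ℝ (Fin n → ℝ)) :=
  {p | @AccPt _ (projTop n) p (𝓟 S)}

/-- the limit roots `E_Φ`: the accumulation points of the projective roots -/
def LimitRoots (M : CoxeterMatrix (Fin n)) (c : Fin n → Fin n → ℝ) : Set (ℙ ℝ (Fin n → ℝ)) :=
  acc (projRoots M c)

/-- the set `E_x`: the accumulation points of the orbit `W · x` -/
def E (M : CoxeterMatrix (Fin n)) (c : Fin n → Fin n → ℝ) (x : ℙ ℝ (Fin n → ℝ)) : Set (ℙ ℝ (Fin n → ℝ)) :=
  acc {q | InOrbit M c x q}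

/-- the catchment set `F_Φ` of the limit roots -/
def Catchment (M : CoxeterMatrix (Fin n)) (c : Fin n → Fin n → ℝ) : Set (ℙ ℝ (Fin n → ℝ)) :=
  {x | E M c x = LimitRoots M c}

end defs

/-! ### The projective plane -/

theorem isClosed_point (q : ℙ ℝ (Fin 3 → ℝ)) : @IsClosed _ (projTop 3) {q} := by
  let _ := projTop 3
  induction q using Projectivization.ind with
  | h q hq =>
    rw [isClosed_coinduced]
    have : (fun v : {v : Fin 3 → ℝ // v ≠ 0} => Projectivization.mk ℝ v.1 v.2) ⁻¹' {Projectivization.mk ℝ q hq} =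
        Subtype.val ⁻¹' ((ℝ ∙ q : Submodule ℝ (Fin 3 → ℝ)) : Set (Fin 3 → ℝ)) := by
      ext v
      simp only [Set.mem_preimage, Set.mem_singleton_iff, SetLike.mem_coe]
      rw [Projectivization.mk_eq_mk_iff', Submodule.mem_span_singleton]
    rw [this]
    exact (Submodule.closed_of_finiteDimensional _).preimage continuous_subtype_val

theorem t1 : @T1Space _ (projTop 3) := by
  let _ := projTop 3
  exact ⟨isClosed_point⟩

/-- an accumulation point `p` of the directions of integral vectors with `B(m, m) = k` is light-like -/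
theorem FF_eq_zero {S : Set (ℙ ℝ (Fin 3 → ℝ))} {k : ℝ}
    (hS : ∀ q ∈ S, ∃ m : Fin 3 → ℤ, ∃ h : (fun i => (m i : ℝ)) ≠ 0,
      q = Projectivization.mk ℝ (fun i => (m i : ℝ)) h ∧ bil M c (fun i => (m i : ℝ)) (fun i => (m i : ℝ)) = k)
    {p : ℙ ℝ (Fin 3 → ℝ)} (hp : p ∈ acc S) : FF p = 0 := by
  let _ := projTop 3
  have := t1
  by_contra hne
  set L := |FF p| with hL
  have hLpos : 0 < L := abs_pos.2 hne
  have hU : {q | L / 2 < |FF q|} ∈ 𝓝 p :=
    (isOpen_lt continuous_const (FF_cont.abs)).mem_nhds (half_lt_self hLpos)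
  obtain ⟨R, hR⟩ := exists_nat_gt (2 * |k| / L)
  have hfin : (S ∩ {q | L / 2 < |FF q|}).Finite := by
    have h1 : Set.Finite {m : Fin 3 → ℤ | ∀ i, m i ∈ Finset.Icc (-(R : ℤ)) R} :=
      Set.Finite.subset (Set.Finite.pi' (t := fun _ => (Finset.Icc (-(R : ℤ)) R : Set ℤ))
        fun i => Finset.finite_toSet _) fun m hm i => hm i
    refine Set.Finite.subset (h1.image fun m => if h : (fun i => (m i : ℝ)) ≠ 0 then
      Projectivization.mk ℝ (fun i => (m i : ℝ)) h else p) ?_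
    rintro q ⟨hq, hq2⟩
    obtain ⟨m, hm, rfl, hk⟩ := hS q hq
    refine ⟨m, ?_, by simp only [dif_pos hm]⟩
    intro i
    have h2 : L / 2 < |FF (Projectivization.mk ℝ (fun i => (m i : ℝ)) hm)| := hq2
    rw [FF_mk, hk, abs_div, abs_of_pos (bil_pos_sq hm), lt_div_iff₀ (bil_pos_sq hm)] at h2
    have h3 : ((m i : ℝ)) ^ 2 ≤ ∑ i, ((m i : ℝ)) ^ 2 :=
      Finset.single_le_sum (f := fun i => ((m i : ℝ)) ^ 2) (fun i _ => sq_nonneg _) (Finset.mem_univ i)
    have h4 : ∑ i, ((m i : ℝ)) ^ 2 < 2 * |k| / L := by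
      rw [lt_div_iff₀ hLpos]
      linarith
    have h5 : ((m i : ℝ)) ^ 2 < R := by linarith
    have h6 : (m i) ^ 2 < (R : ℤ) := by exact_mod_cast h5
    rw [Finset.mem_Icc]
    constructor <;> nlinarith
  have h7 : AccPt p (𝓟 S) := hp
  have h8 := accPt_iff_nhds.1 h7
  have hcl : IsClosed ((S ∩ {q | L / 2 < |FF q|}) \ {p}) := (hfin.subset Set.diff_subset).isClosed
  have h9 : ((S ∩ {q | L / 2 < |FF q|}) \ {p})ᶜ ∈ 𝓝 p := by
    refine hcl.isOpen_compl.mem_nhds ?_
    intro h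
    exact h.2 rfl
  obtain ⟨q, ⟨⟨hq1, hq2⟩, hq3⟩, hq4⟩ := h8 _ (Filter.inter_mem hU h9)
  exact hq2 ⟨⟨hq3, hq1⟩, hq4⟩

/-- the nonzero vectors with direction in an open set form an open set -/
theorem isOpen_vec {U : Set (ℙ ℝ (Fin 3 → ℝ))} (hU : @IsOpen _ (projTop 3) U) :
    IsOpen {v : Fin 3 → ℝ | ∃ h : v ≠ 0, Projectivization.mk ℝ v h ∈ U} := by
  let _ := projTop 3
  have hmk : Continuous (fun v : {v : Fin 3 → ℝ // v ≠ 0} => Projectivization.mk ℝ v.1 v.2) :=
    continuous_coinduced_rng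
  have h1 := (isOpen_ne (x := (0 : Fin 3 → ℝ))).isOpenMap_subtype_val _ (hU.preimage hmk)
  convert h1 using 1
  ext v
  constructor
  · rintro ⟨h, hv⟩
    exact ⟨⟨v, h⟩, hv, rfl⟩
  · rintro ⟨⟨v', h⟩, hv, rfl⟩
    exact ⟨h, hv⟩

/-! ### Light-like directions -/

theorem bil_Psi (A B C : ℝ) : bil M c (Psi A B C) (Psi A B C) = B ^ 2 - 4 * A * C := by
  rw [bil_eq]
  simp only [Psi]
  simp
  ring

theorem Psi_ne_of {A B C : ℝ} (h : Psi A B C = 0) : A = 0 ∧ B = 0 ∧ C = 0 := by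
  have h0 := congrFun h 0
  have h1 := congrFun h 1
  have h2 := congrFun h 2
  simp [Psi] at h0 h1 h2
  subst h2
  refine ⟨rfl, ?_, ?_⟩ <;> linarith

theorem exists_Psi (v : Fin 3 → ℝ) : ∃ A B C : ℝ, v = Psi A B C := by
  refine ⟨-(v 2) / 2, v 0 - v 1, (v 2 - v 1) / 2, ?_⟩
  ext i
  fin_cases i <;> simp [Psi] <;> ring

/-- substitution of a real matrix -/
def subR (k l m n A B C : ℝ) : Fin 3 → ℝ :=
  Psi (A * k ^ 2 + B * k * m + C * m ^ 2) (2 * A * k * l + B * (k * n + l * m) + 2 * C * m * n)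
    (A * l ^ 2 + B * l * n + C * n ^ 2)

theorem subR_smul (t k l m n A B C : ℝ) :
    subR (t * k) (t * l) (t * m) (t * n) A B C = t ^ 2 • subR k l m n A B C := by
  rw [subR, subR, ← Psi_smul]
  congr 1 <;> ring

theorem sub_eq (g : Matrix (Fin 2) (Fin 2) ℤ) (A B C : ℝ) :
    sub g A B C = subR (g 0 0) (g 0 1) (g 1 0) (g 1 1) A B C := rfl

/-- a primitive integral vector at which the form does not vanish -/
theorem exists_value {A B C : ℝ} (h : B ^ 2 - 4 * A * C ≠ 0) :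
    ∃ p q r s : ℤ, p * s - q * r = 1 ∧ A * p ^ 2 + B * p * r + C * r ^ 2 ≠ 0 := by
  by_cases hA : A = 0
  · by_cases hC : C = 0
    · refine ⟨1, 0, 1, 1, by norm_num, ?_⟩
      intro h0
      apply h
      subst hA hC
      push_cast at h0
      have : B = 0 := by linarith
      rw [this]
      norm_num
    · refine ⟨0, -1, 1, 0, by norm_num, ?_⟩
      push_cast
      simpa using hC
  · refine ⟨1, 0, 0, 1, by norm_num, ?_⟩
    push_cast
    simpa using hA

theorem sq_ne {a b : ℝ} (h : a ≠ 0 ∨ b ≠ 0) : Psi (a ^ 2) (2 * a * b) (b ^ 2) ≠ 0 := by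
  intro h0
  obtain ⟨h1, -, h3⟩ := Psi_ne_of h0
  rcases h with h | h
  · exact h (pow_eq_zero_iff (two_ne_zero) |>.1 h1)
  · exact h (pow_eq_zero_iff (two_ne_zero) |>.1 h3)

theorem inOrbit_mk {w : Module.End ℝ (Fin 3 → ℝ)} (hw : w ∈ Wim M c) {v u : Fin 3 → ℝ} (hv : v ≠ 0) (hu : u ≠ 0)
    {t : ℝ} (ht : t ≠ 0) (h : u = t • w v) :
    InOrbit M c (Projectivization.mk ℝ v hv) (Projectivization.mk ℝ u hu) := by
  have hwv : w v ≠ 0 := by
    intro h0
    rw [h0, smul_zero] at h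
    exact hu h
  refine ⟨w, hw, v, hv, hwv, rfl, ?_⟩
  rw [Projectivization.mk_eq_mk_iff']
  exact ⟨t, h.symm⟩

/-- the orbit of a vector with `B(v, v) ≠ 0` comes close to the direction of `(a X + b Y)²`, `a`, `b` coprime -/
theorem near_coprime {A B C : ℝ} (h : B ^ 2 - 4 * A * C ≠ 0) (hv : Psi A B C ≠ 0) {a b x y : ℤ}
    (hab : x * b - y * a = 1) (hne : Psi ((a : ℝ) ^ 2) (2 * a * b) ((b : ℝ) ^ 2) ≠ 0)
    {U : Set (ℙ ℝ (Fin 3 → ℝ))} (hU : @IsOpen _ (projTop 3) U)
    (hmem : Projectivization.mk ℝ (Psi ((a : ℝ) ^ 2) (2 * a * b) ((b : ℝ) ^ 2)) hne ∈ U) :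
    ∃ q ∈ U, InOrbit M c (Projectivization.mk ℝ (Psi A B C) hv) q ∧ FF q ≠ 0 := by
  obtain ⟨p, q, r, s, hdet, hval⟩ := exists_value h
  let φ : ℝ → (Fin 3 → ℝ) := fun e => subR (p * (e * x + a) + e * (q * a)) (p * (e * y + b) + e * (q * b))
    (r * (e * x + a) + e * (s * a)) (r * (e * y + b) + e * (s * b)) A B C
  have hφ : Continuous φ := by
    simp only [φ, subR, Psi]
    refine continuous_pi fun i => ?_
    fin_cases i <;> simp <;> fun_prop
  have hφ0 : φ 0 = (A * p ^ 2 + B * p * r + C * r ^ 2) • Psi ((a : ℝ) ^ 2) (2 * a * b) ((b : ℝ) ^ 2) := by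
    simp only [φ, subR]
    rw [← Psi_smul]
    congr 1 <;> ring
  have hφ0' : φ 0 ≠ 0 := by
    rw [hφ0]
    exact smul_ne_zero hval hne
  have hV := isOpen_vec hU
  have h0V : φ 0 ∈ {v : Fin 3 → ℝ | ∃ h : v ≠ 0, Projectivization.mk ℝ v h ∈ U} := by
    refine ⟨hφ0', ?_⟩
    have : Projectivization.mk ℝ (φ 0) hφ0' = Projectivization.mk ℝ _ hne := by
      rw [Projectivization.mk_eq_mk_iff']
      exact ⟨_, hφ0.symm⟩
    rw [this]
    exact hmem
  have h1 : ∀ᶠ e in 𝓝 (0 : ℝ), φ e ∈ {v : Fin 3 → ℝ | ∃ h : v ≠ 0, Projectivization.mk ℝ v h ∈ U} :=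
    hφ.continuousAt.eventually_mem (hV.mem_nhds h0V)
  have h2 : Tendsto (fun n : ℕ => 1 / ((n : ℝ) + 1)) atTop (𝓝 0) := tendsto_one_div_add_atTop_nhds_zero_nat
  obtain ⟨n, hn⟩ := (h2.eventually h1).exists
  obtain ⟨hne', hmem'⟩ := hn
  set N : ℤ := (n : ℤ) + 1 with hN
  have hNpos : (0 : ℝ) < (n : ℝ) + 1 := by positivity
  let g : Matrix.SpecialLinearGroup (Fin 2) ℤ := ⟨!![p * (x + N * a) + q * a, p * (y + N * b) + q * b;
    r * (x + N * a) + s * a, r * (y + N * b) + s * b], by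
    rw [Matrix.det_fin_two_of]
    linear_combination (p * s - q * r) * hab + hdet⟩
  obtain ⟨w, hw, hw'⟩ := exists_w g
  have e : φ (1 / ((n : ℝ) + 1)) = ((1 / ((n : ℝ) + 1)) ^ 2) • w (Psi A B C) := by
    rw [hw', sub_eq, ← subR_smul]
    have g00 : g 0 0 = p * (x + N * a) + q * a := rfl
    have g01 : g 0 1 = p * (y + N * b) + q * b := rfl
    have g10 : g 1 0 = r * (x + N * a) + s * a := rfl
    have g11 : g 1 1 = r * (y + N * b) + s * b := rfl
    simp only [φ]
    rw [g00, g01, g10, g11, hN]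
    push_cast
    have h3 : 1 / ((n : ℝ) + 1) * ((n : ℝ) + 1) = 1 := one_div_mul_cancel hNpos.ne'
    congr 1
    · linear_combination (-(p * a : ℝ)) * h3
    · linear_combination (-(p * b : ℝ)) * h3
    · linear_combination (-(r * a : ℝ)) * h3
    · linear_combination (-(r * b : ℝ)) * h3
  refine ⟨_, hmem', inOrbit_mk hw hv hne' (by positivity) e, ?_⟩
  rw [FF_mk, e]
  have h5 : bil M c (((1 / ((n : ℝ) + 1)) ^ 2) • w (Psi A B C)) (((1 / ((n : ℝ) + 1)) ^ 2) • w (Psi A B C)) =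
      ((1 / ((n : ℝ) + 1)) ^ 2) ^ 2 * bil M c (w (Psi A B C)) (w (Psi A B C)) := by
    rw [bil_eq, bil_eq]
    simp only [Pi.smul_apply, smul_eq_mul]
    ring
  rw [h5, (intEnd_of_mem hw).2, bil_Psi]
  refine div_ne_zero (mul_ne_zero (by positivity) h) ?_
  rw [← e]
  exact (bil_pos_sq hne').ne'

/-- the orbit of a vector with `B(v, v) ≠ 0` comes close to all light-like directions -/
theorem near_light {A B C : ℝ} (h : B ^ 2 - 4 * A * C ≠ 0) (hv : Psi A B C ≠ 0) {p : ℙ ℝ (Fin 3 → ℝ)}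
    (hp : FF p = 0) {U : Set (ℙ ℝ (Fin 3 → ℝ))} (hU : @IsOpen _ (projTop 3) U) (hpU : p ∈ U) :
    ∃ q ∈ U, InOrbit M c (Projectivization.mk ℝ (Psi A B C) hv) q ∧ FF q ≠ 0 := by
  induction p using Projectivization.ind with
  | h v hv0 =>
    obtain ⟨A', B', C', rfl⟩ := exists_Psi v
    rw [FF_mk, bil_Psi, div_eq_zero_iff] at hp
    have hd : B' ^ 2 - 4 * A' * C' = 0 := by
      rcases hp with hp | hp
      · exact hp
      · exact absurd hp (bil_pos_sq hv0).ne'
    by_cases hC : C' = 0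
    · -- the direction of `X ^ 2`
      subst hC
      have hB : B' = 0 := by
        have : B' ^ 2 = 0 := by linarith
        exact pow_eq_zero_iff (two_ne_zero) |>.1 this
      subst hB
      have hA : A' ≠ 0 := by
        rintro rfl
        apply hv0
        ext i
        fin_cases i <;> simp [Psi]
      have hne : Psi (((1 : ℤ) : ℝ) ^ 2) (2 * ((1 : ℤ) : ℝ) * ((0 : ℤ) : ℝ)) (((0 : ℤ) : ℝ) ^ 2) ≠ 0 :=
        sq_ne (Or.inl (by norm_num))
      refine near_coprime h hv (a := 1) (b := 0) (x := 0) (y := -1) (by norm_num) hne hU ?_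
      have : Projectivization.mk ℝ _ hne = Projectivization.mk ℝ _ hv0 := by
        rw [Projectivization.mk_eq_mk_iff']
        refine ⟨A'⁻¹, ?_⟩
        rw [← Psi_smul]
        congr 1
        · rw [inv_mul_cancel₀ hA]
          norm_num
        · push_cast
          ring
        · push_cast
          ring
      rw [this]
      exact hpU
    · -- the direction of `(t X + Y) ^ 2`
      set t : ℝ := B' / (2 * C') with ht
      have hφ : Continuous (fun t : ℝ => Psi (t ^ 2) (2 * t) 1) := by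
        simp only [Psi]
        refine continuous_pi fun i => ?_
        fin_cases i <;> simp <;> fun_prop
      have hne : ∀ t : ℝ, Psi (t ^ 2) (2 * t) 1 ≠ 0 := by
        intro t h0
        exact one_ne_zero (Psi_ne_of h0).2.2
      have hV := (isOpen_vec hU).preimage hφ
      have htV : t ∈ (fun t : ℝ => Psi (t ^ 2) (2 * t) 1) ⁻¹'
          {v : Fin 3 → ℝ | ∃ h : v ≠ 0, Projectivization.mk ℝ v h ∈ U} := by
        refine ⟨hne t, ?_⟩
        have : Projectivization.mk ℝ _ (hne t) = Projectivization.mk ℝ _ hv0 := by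
          rw [Projectivization.mk_eq_mk_iff']
          refine ⟨C'⁻¹, ?_⟩
          rw [← Psi_smul]
          congr 1
          · rw [ht]
            field_simp
            linarith
          · rw [ht]
            field_simp
          · rw [inv_mul_cancel₀ hC]
        rw [this]
        exact hpU
      obtain ⟨z, hz⟩ := Rat.denseRange_cast.exists_mem_open hV ⟨t, htV⟩
      obtain ⟨hz0, hzU⟩ := hz
      obtain ⟨u, v', huv⟩ : IsCoprime z.num (z.den : ℤ) := by
        rw [Int.isCoprime_iff_gcd_eq_one]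
        exact z.reduced
      have hden : (0 : ℝ) < z.den := by exact_mod_cast z.den_pos
      have hne2 : Psi ((z.num : ℝ) ^ 2) (2 * z.num * ((z.den : ℤ) : ℝ)) (((z.den : ℤ) : ℝ) ^ 2) ≠ 0 := by
        apply sq_ne
        right
        push_cast
        exact hden.ne'
      refine near_coprime h hv (a := z.num) (b := z.den) (x := v') (y := -u) (by linarith) hne2 hU ?_
      have : Projectivization.mk ℝ _ hne2 = Projectivization.mk ℝ _ hz0 := by
        rw [Projectivization.mk_eq_mk_iff']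
        refine ⟨(z.den : ℝ) ^ 2, ?_⟩
        have hz1 : (z : ℝ) * z.den = z.num := by
          exact_mod_cast Rat.mul_den_eq_num z
        rw [← Psi_smul]
        push_cast
        congr 1
        · rw [← hz1]
          ring
        · rw [← hz1]
          ring
        · ring
      rw [this]
      exact hzU

theorem light_mem_acc {A B C : ℝ} (h : B ^ 2 - 4 * A * C ≠ 0) (hv : Psi A B C ≠ 0) {S : Set (ℙ ℝ (Fin 3 → ℝ))}
    (hS : ∀ q, InOrbit M c (Projectivization.mk ℝ (Psi A B C) hv) q → q ∈ S) {p : ℙ ℝ (Fin 3 → ℝ)}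
    (hp : FF p = 0) : p ∈ acc S := by
  let _ := projTop 3
  change AccPt p (𝓟 S)
  rw [accPt_iff_nhds]
  intro U hU
  obtain ⟨V, hVU, hV, hpV⟩ := mem_nhds_iff.1 hU
  obtain ⟨q, hqV, hq, hq0⟩ := near_light h hv hp hV hpV
  refine ⟨q, ⟨hVU hqV, hS q hq⟩, ?_⟩
  rintro rfl
  exact hq0 hp

/-! ### Limit roots and rational directions -/

theorem limitRoots_eq : LimitRoots M c = {p | FF p = 0} := by
  ext p
  constructor
  · intro hp
    refine FF_eq_zero (k := 1) ?_ hp
    rintro q ⟨α, ⟨w, hw, s, rfl⟩, h, rfl⟩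
    obtain ⟨⟨N, hN, h3⟩, h4⟩ := intEnd_of_mem hw
    have h5 : w (root s) = fun i => ((N i s : ℤ) : ℝ) := by
      rw [h3, root]
      ext i
      simp [Matrix.mulVec_single]
    have h6 : bil M c (root s) (root s) = 1 := by
      rw [bil_eq]
      fin_cases s <;> simp [root]
    have h8 : (fun i => ((N i s : ℤ) : ℝ)) ≠ 0 := by
      rw [← h5]
      exact h
    refine ⟨fun i => N i s, h8, ?_, ?_⟩
    · rw [Projectivization.mk_eq_mk_iff']
      exact ⟨1, by rw [one_smul, h5]⟩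
    · rw [← h5, h4, h6]
  · intro hp
    have hr : Psi 0 1 0 = root (0 : Fin 3) := by
      ext i
      fin_cases i <;> simp [Psi, root]
    have hv : Psi 0 1 0 ≠ 0 := fun h => one_ne_zero (Psi_ne_of h).2.1
    refine light_mem_acc (A := 0) (B := 1) (C := 0) (by norm_num) hv ?_ hp
    rintro q ⟨w, hw, v, hv1, hwv, h1, rfl⟩
    rw [Projectivization.mk_eq_mk_iff'] at h1
    obtain ⟨t, ht⟩ := h1
    have ht0 : t ≠ 0 := by
      rintro rfl
      rw [zero_smul] at ht
      exact hv ht.symm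
    have h2 : w v = t⁻¹ • w (root 0) := by
      rw [← hr, ← ht, map_smul, smul_smul, inv_mul_cancel₀ ht0, one_smul]
    have h3 : w (root 0) ≠ 0 := by
      intro h0
      rw [h0, smul_zero] at h2
      exact hwv h2
    refine ⟨w (root 0), ⟨w, hw, 0, rfl⟩, h3, ?_⟩
    rw [Projectivization.mk_eq_mk_iff']
    exact ⟨t⁻¹, h2.symm⟩

theorem E_int {m : Fin 3 → ℤ} (hm : (fun i => (m i : ℝ)) ≠ 0)
    (hk : bil M c (fun i => (m i : ℝ)) (fun i => (m i : ℝ)) ≠ 0) :
    E M c (Projectivization.mk ℝ (fun i => (m i : ℝ)) hm) = {p | FF p = 0} := by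
  ext p
  constructor
  · intro hp
    refine FF_eq_zero (k := bil M c (fun i => (m i : ℝ)) (fun i => (m i : ℝ))) ?_ hp
    rintro q ⟨w, hw, v, hv1, hwv, h1, rfl⟩
    rw [Projectivization.mk_eq_mk_iff'] at h1
    obtain ⟨t, ht⟩ := h1
    have ht0 : t ≠ 0 := by
      rintro rfl
      rw [zero_smul] at ht
      exact hm ht.symm
    obtain ⟨⟨N, hN, h3⟩, h4⟩ := intEnd_of_mem hw
    have h5 : w (fun i => (m i : ℝ)) = fun i => ((N.mulVec m i : ℤ) : ℝ) := by
      rw [h3]
      ext i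
      simp [Matrix.mulVec, dotProduct]
    have h2 : w v = t⁻¹ • (fun i => ((N.mulVec m i : ℤ) : ℝ)) := by
      rw [← h5, ← ht, map_smul, smul_smul, inv_mul_cancel₀ ht0, one_smul]
    have h8 : (fun i => ((N.mulVec m i : ℤ) : ℝ)) ≠ 0 := by
      intro h0
      rw [h0, smul_zero] at h2
      exact hwv h2
    refine ⟨fun i => N.mulVec m i, h8, ?_, ?_⟩
    · rw [Projectivization.mk_eq_mk_iff']
      exact ⟨t⁻¹, h2.symm⟩
    · rw [← h5, h4]
  · intro hp
    obtain ⟨A, B, C, hABC⟩ := exists_Psi (fun i => (m i : ℝ))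
    have hv : Psi A B C ≠ 0 := by rw [← hABC]; exact hm
    have hd : B ^ 2 - 4 * A * C ≠ 0 := by rw [← bil_Psi, ← hABC]; exact hk
    refine light_mem_acc hd hv (fun q hq => ?_) hp
    have : Projectivization.mk ℝ (fun i => (m i : ℝ)) hm = Projectivization.mk ℝ (Psi A B C) hv := by
      rw [Projectivization.mk_eq_mk_iff']
      exact ⟨1, by rw [one_smul, hABC]⟩
    rw [Set.mem_setOf_eq, this]
    exact hq

/-! ### The base point with a space-like limit direction -/

theorem target_mem (xi : ℝ) (hxi : ∀ δ : ℝ, 0 < δ → Good xi δ) :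
    Projectivization.mk ℝ (vv 0 (-√2)) (vv_ne 0 (-√2)) ∈
      E M c (Projectivization.mk ℝ (Psi 0 1 (-xi)) (Psi01_ne xi)) := by
  let _ := projTop 3
  change AccPt _ (𝓟 _)
  rw [accPt_iff_nhds]
  intro U hU
  obtain ⟨V, hVU, hV, hpV⟩ := mem_nhds_iff.1 hU
  have hcont : Continuous (fun x : ℝ × ℝ => vv x.1 x.2) := by
    unfold vv Psi
    refine continuous_pi fun i => ?_
    fin_cases i <;> simp <;> fun_prop
  have h1 := (isOpen_vec hV).preimage hcont
  have h2 : ((0 : ℝ), -√2) ∈ (fun x : ℝ × ℝ => vv x.1 x.2) ⁻¹'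
      {v : Fin 3 → ℝ | ∃ h : v ≠ 0, Projectivization.mk ℝ v h ∈ V} := ⟨vv_ne _ _, hpV⟩
  obtain ⟨ε, hε, hball⟩ := Metric.isOpen_iff.1 h1 _ h2
  obtain ⟨a, b, ha, hae, hbe, horb⟩ := orbit_points xi hxi (min ε 1) (lt_min hε one_pos)
  have hmem : (a, b) ∈ Metric.ball ((0 : ℝ), -√2) ε := by
    rw [Metric.mem_ball, Prod.dist_eq, max_lt_iff, Real.dist_eq, Real.dist_eq]
    refine ⟨?_, ?_⟩
    · simpa using hae.trans_le (min_le_left _ _)
    · have := hbe.trans_le (min_le_left ε 1)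
      simpa using this
  obtain ⟨h3, h4⟩ := hball hmem
  refine ⟨Projectivization.mk ℝ (vv a b) (vv_ne a b), ⟨hVU h4, horb⟩, ?_⟩
  intro heq
  rw [Projectivization.mk_eq_mk_iff'] at heq
  obtain ⟨t, ht⟩ := heq
  have e2 := congrFun ht 2
  have e1 := congrFun ht 1
  have e0 := congrFun ht 0
  simp only [vv, Psi, Pi.smul_apply, smul_eq_mul] at e0 e1 e2
  simp at e0 e1 e2
  subst e2
  have e3 : a * b = 0 := by linarith
  have e4 : b = 0 := by
    rcases mul_eq_zero.1 e3 with h | h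
    · exact absurd h ha
    · exact h
  have h5 := hbe.trans_le (min_le_right ε 1)
  rw [e4, zero_add, abs_of_pos (by positivity)] at h5
  have h9 : (1 : ℝ) < √2 := Real.one_lt_sqrt_two
  linarith

theorem FF_target : FF (Projectivization.mk ℝ (vv 0 (-√2)) (vv_ne 0 (-√2))) ≠ 0 := by
  rw [FF_mk, vv, bil_Psi]
  refine div_ne_zero ?_ (bil_pos_sq (vv_ne 0 (-√2))).ne'
  have h2 : √2 * √2 = 2 := Real.mul_self_sqrt (by norm_num)
  have : (0 + -√2) ^ 2 - 4 * 1 * (0 * -√2) = √2 * √2 := by ring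
  rw [this, h2]
  norm_num

/-- **Theorem.** There is a Lorentzian Coxeter system (of rank `3`) whose catchment set of limit roots `F_Φ` is not
closed in the projective space. -/
theorem result : ∃ (n : ℕ) (M : CoxeterMatrix (Fin n)) (c : Fin n → Fin n → ℝ),
    IsGeometric M c ∧ IsLorentzian M c ∧ ¬ @IsClosed _ (projTop n) (Catchment M c) := by
  refine ⟨3, M, c, geometric, lorentzian, fun hcl => ?_⟩
  let _ := projTop 3
  obtain ⟨xi, hxi⟩ := exists_xi
  have hnot : Projectivization.mk ℝ (Psi 0 1 (-xi)) (Psi01_ne xi) ∉ Catchment M c := by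
    intro h
    have h1 : E M c (Projectivization.mk ℝ (Psi 0 1 (-xi)) (Psi01_ne xi)) = LimitRoots M c := h
    have h2 := target_mem xi hxi
    rw [h1, limitRoots_eq] at h2
    exact FF_target h2
  have hφ : Continuous (fun t : ℝ => Psi 0 1 (-t)) := by
    simp only [Psi]
    refine continuous_pi fun i => ?_
    fin_cases i <;> simp <;> fun_prop
  have h1 := (isOpen_vec hcl.isOpen_compl).preimage hφ
  have h2 : xi ∈ (fun t : ℝ => Psi 0 1 (-t)) ⁻¹'
      {v : Fin 3 → ℝ | ∃ h : v ≠ 0, Projectivization.mk ℝ v h ∈ (Catchment M c)ᶜ} := ⟨Psi01_ne xi, hnot⟩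
  obtain ⟨z, hz⟩ := Rat.denseRange_cast.exists_mem_open h1 ⟨xi, h2⟩
  obtain ⟨hz0, hzU⟩ := hz
  apply hzU
  have hden : (0 : ℝ) < z.den := by exact_mod_cast z.den_pos
  have hz1 : (z : ℝ) * z.den = z.num := by
    exact_mod_cast Rat.mul_den_eq_num z
  have e : (fun i => (((![z.den + 2 * z.num, 2 * z.num, 0] : Fin 3 → ℤ) i : ℤ) : ℝ)) =
      (z.den : ℝ) • Psi 0 1 (-(z : ℝ)) := by
    ext i
    fin_cases i
    · simp [Psi]
      linarith
    · simp [Psi]
      linarith
    · simp [Psi]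
  have hm : (fun i => (((![z.den + 2 * z.num, 2 * z.num, 0] : Fin 3 → ℤ) i : ℤ) : ℝ)) ≠ 0 := by
    rw [e]
    exact smul_ne_zero hden.ne' hz0
  have hk : bil M c (fun i => (((![z.den + 2 * z.num, 2 * z.num, 0] : Fin 3 → ℤ) i : ℤ) : ℝ))
      (fun i => (((![z.den + 2 * z.num, 2 * z.num, 0] : Fin 3 → ℤ) i : ℤ) : ℝ)) ≠ 0 := by
    rw [e, ← Psi_smul, bil_Psi]
    have : ((z.den : ℝ) * 1) ^ 2 - 4 * (z.den * 0) * (z.den * -z) = (z.den : ℝ) ^ 2 := by ring
    rw [this]
    positivity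
  have h3 : Projectivization.mk ℝ (Psi 0 1 (-(z : ℝ))) hz0 = Projectivization.mk ℝ _ hm := by
    rw [Projectivization.mk_eq_mk_iff']
    refine ⟨(z.den : ℝ)⁻¹, ?_⟩
    rw [e, smul_smul, inv_mul_cancel₀ hden.ne', one_smul]
  change E M c _ = LimitRoots M c
  rw [h3, E_int hm hk, limitRoots_eq]

end Pool.Agent.Results.MP_241ca8_al.CatchmentNotClosed
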